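import Pool.Agent.helper57.PP.Spec

set_option autoImplicit false

namespace Pool.Agent.helper57.PP

open Finset

section DT

variable {W : Type} [DecidableEq W]

theorem DT_conn {H H' : SimpleGraph W} (hH : H.Connected)
    (h : ∀ u v, H.Adj u v → H'.Reachable u v) : H'.Connected := by
  have hne : Nonempty W := hH.nonempty
  refine SimpleGraph.Connected.mk ?_
  intro u v
  have h1 : H.Reachable u v := hH.preconnected u v
  rw [SimpleGraph.reachable_iff_reflTransGen] at h1
  induction h1 with
  | refl => exact SimpleGraph.Reachable.refl _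
  | tail _ hab ih => exact ih.trans (h _ _ hab)

/-- the data after `k` steps -/
structure DT_P (F G Y : Finset (Finset W)) : Prop where
  sub : G ⊆ F
  ysub : Y ⊆ edges F
  card : Y.card + 1 = G.card
  cofs : ∀ e ∈ Y, cof F e ⊆ G
  conn : (gr (edges F \ Y)).Connected
  all : ∀ S : Finset (Finset W), ∃ B ⊆ G, Disjoint (symmDiff S (bd B)) Y
  last : ∀ B ⊆ G, Disjoint (bd B) Y → B = ∅ ∨ B = G

theorem DT_step (F : Finset (Finset W)) (hF : IsSurface F)
    (hDC : ∀ G ⊆ F, bd G = ∅ → G = ∅ ∨ G = F) (G Y : Finset (Finset W)) (h : DT_P F G Y)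
    (hG : G ≠ F) : ∃ G' Y', DT_P F G' Y' ∧ G'.card = G.card + 1 := by
  have hG0 : G ≠ ∅ := by
    rintro rfl
    have := h.card
    simp at this
  have hbd : (bd G).Nonempty := by
    rw [Finset.nonempty_iff_ne_empty]
    intro h0
    rcases hDC G h.sub h0 with h1 | h1
    · exact hG0 h1
    · exact hG h1
  obtain ⟨e, he⟩ := hbd
  have hec : e.card = 2 := (mem_bd.1 he).1
  have heo : Odd (cof G e).card := (mem_bd.1 he).2
  have heG : e ∈ edges G := bd_subset_edges G he
  have heF : e ∈ edges F := edges_mono h.sub heG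
  have hF2 : (cof F e).card = 2 := hF.two e heF
  have hsub : cof G e ⊆ cof F e := cof_mono h.sub e
  have hG1 : (cof G e).card = 1 := by
    have := Finset.card_le_card hsub
    rw [hF2] at this
    obtain ⟨m, hm⟩ := heo
    omega
  obtain ⟨τ0, hτ0⟩ := Finset.card_eq_one.1 hG1
  have hsd : (cof F e \ cof G e).card = 1 := by
    rw [Finset.card_sdiff_of_subset hsub, hF2, hG1]
  obtain ⟨τ, hτ⟩ := Finset.card_eq_one.1 hsd
  have hτ0G : τ0 ∈ G ∧ e ⊆ τ0 := by
    have : τ0 ∈ cof G e := by rw [hτ0]; simp
    exact mem_cof.1 this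
  have hτF : (τ ∈ F ∧ e ⊆ τ) ∧ τ ∉ G := by
    have h1 : τ ∈ cof F e \ cof G e := by rw [hτ]; simp
    rw [Finset.mem_sdiff, mem_cof, mem_cof] at h1
    exact ⟨h1.1, fun h2 => h1.2 ⟨h2, h1.1.2⟩⟩
  have hττ : τ0 ≠ τ := by
    rintro rfl
    exact hτF.2 hτ0G.1
  have hcofF : ∀ t, t ∈ cof F e → t = τ0 ∨ t = τ := by
    intro t ht
    by_cases h1 : t ∈ cof G e
    · left
      rw [hτ0] at h1
      simpa using h1
    · right
      have : t ∈ cof F e \ cof G e := Finset.mem_sdiff.2 ⟨ht, h1⟩
      rw [hτ] at this
      simpa using this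
  have heY : e ∉ Y := by
    intro h1
    exact hτF.2 (h.cofs e h1 (mem_cof.2 hτF.1))
  have hYτ : ∀ e' ∈ Y, τ ∉ cof F e' := fun e' he' h1 => hτF.2 (h.cofs e' he' h1)
  refine ⟨insert τ G, insert e Y, ?_, ?_⟩
  swap
  · rw [Finset.card_insert_of_notMem hτF.2]
  refine ⟨?_, ?_, ?_, ?_, ?_, ?_, ?_⟩
  · intro t ht
    rcases Finset.mem_insert.1 ht with rfl | ht
    · exact hτF.1.1
    · exact h.sub ht
  · intro t ht
    rcases Finset.mem_insert.1 ht with rfl | ht
    · exact heF
    · exact h.ysub ht
  · rw [Finset.card_insert_of_notMem heY, Finset.card_insert_of_notMem hτF.2, h.card]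
  · intro e' he' t ht
    rcases Finset.mem_insert.1 he' with rfl | he'
    · rcases hcofF t ht with rfl | rfl
      · exact Finset.mem_insert_of_mem hτ0G.1
      · exact Finset.mem_insert_self _ _
    · exact Finset.mem_insert_of_mem (h.cofs e' he' ht)
  · -- connected
    refine DT_conn h.conn ?_
    intro u v huv
    obtain ⟨hne, huv⟩ := huv
    by_cases hd : ({u, v} : Finset W) = e
    · have hu : u ∈ τ := hτF.1.2 (by rw [← hd]; simp)
      have hv : v ∈ τ := hτF.1.2 (by rw [← hd]; simp)
      have hw : (τ \ e).Nonempty := by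
        rw [← Finset.card_pos, Finset.card_sdiff_of_subset hτF.1.2, hF.card3 τ hτF.1.1, hec]
        norm_num
      obtain ⟨w, hw⟩ := hw
      obtain ⟨hwτ, hwe⟩ := Finset.mem_sdiff.1 hw
      have hwu : w ≠ u := by
        rintro rfl
        apply hwe
        rw [← hd]; simp
      have hwv : w ≠ v := by
        rintro rfl
        apply hwe
        rw [← hd]; simp
      have key : ∀ x ∈ τ, w ≠ x → (gr (edges F \ insert e Y)).Adj x w := by
        intro x hx hwx
        refine ⟨hwx.symm, ?_⟩
        have hs : ({x, w} : Finset W) ⊆ τ := by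
          intro y hy
          simp only [mem_insert, mem_singleton] at hy
          rcases hy with rfl | rfl
          · exact hx
          · exact hwτ
        rw [Finset.mem_sdiff]
        refine ⟨mem_edges.2 ⟨Finset.card_pair hwx.symm, τ, hτF.1.1, hs⟩, ?_⟩
        intro h1
        rcases Finset.mem_insert.1 h1 with h1 | h1
        · apply hwe
          rw [← h1]; simp
        · exact hYτ _ h1 (mem_cof.2 ⟨hτF.1.1, hs⟩)
      exact (key u hu hwu).reachable.trans (key v hv hwv).reachable.symm
    · apply SimpleGraph.Adj.reachable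
      refine ⟨hne, ?_⟩
      rw [Finset.mem_sdiff] at huv ⊢
      refine ⟨huv.1, ?_⟩
      intro h1
      rcases Finset.mem_insert.1 h1 with h1 | h1
      · exact hd h1
      · exact huv.2 h1
  · -- all
    intro S
    obtain ⟨B, hB, hdis⟩ := h.all S
    by_cases h1 : e ∈ symmDiff S (bd B)
    · refine ⟨symmDiff B G, ?_, ?_⟩
      · intro t ht
        apply Finset.mem_insert_of_mem
        rcases Finset.mem_symmDiff.1 ht with h2 | h2
        · exact hB h2.1
        · exact h2.1
      · rw [bd_symmDiff, ← symmDiff_assoc, Finset.disjoint_left]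
        intro e' he' he''
        rcases Finset.mem_insert.1 he'' with rfl | he''
        · rcases Finset.mem_symmDiff.1 he' with h2 | h2
          · exact h2.2 he
          · exact h2.2 h1
        · have h3 : e' ∉ symmDiff S (bd B) := fun h4 => Finset.disjoint_left.1 hdis h4 he''
          have h5 : e' ∉ bd G := by
            intro h6
            have h7 := (mem_bd.1 h6).2
            have h8 : cof G e' = cof F e' := by
              apply Finset.Subset.antisymm (cof_mono h.sub e')
              intro t ht
              exact mem_cof.2 ⟨h.cofs e' he'' ht, (mem_cof.1 ht).2⟩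
            rw [h8, hF.two e' (h.ysub he'')] at h7
            exact absurd h7 (by decide)
          rcases Finset.mem_symmDiff.1 he' with h2 | h2
          · exact h3 h2.1
          · exact h5 h2.1
    · refine ⟨B, hB.trans (Finset.subset_insert _ _), ?_⟩
      rw [Finset.disjoint_insert_right]
      exact ⟨h1, hdis⟩
  · -- last
    intro B hB hdis
    rw [Finset.disjoint_insert_right] at hdis
    obtain ⟨heB, hdisY⟩ := hdis
    have hB0 : B.erase τ ⊆ G := by
      intro t ht
      obtain ⟨h1, h2⟩ := Finset.mem_erase.1 ht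
      rcases Finset.mem_insert.1 (hB h2) with h3 | h3
      · exact absurd h3 h1
      · exact h3
    have hd0 : Disjoint (bd (B.erase τ)) Y := by
      rw [Finset.disjoint_left]
      intro e' h1 h2
      apply Finset.disjoint_left.1 hdisY _ h2
      rw [mem_bd] at h1 ⊢
      refine ⟨h1.1, ?_⟩
      have h3 : cof B e' = cof (B.erase τ) e' := by
        ext t
        rw [mem_cof, mem_cof, Finset.mem_erase]
        constructor
        · rintro ⟨h4, h5⟩
          refine ⟨⟨?_, h4⟩, h5⟩
          rintro rfl
          exact hYτ e' h2 (mem_cof.2 ⟨hτF.1.1, h5⟩)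
        · rintro ⟨⟨_, h4⟩, h5⟩
          exact ⟨h4, h5⟩
      rw [h3]
      exact h1.2
    have hBF : B ⊆ F := by
      intro t ht
      rcases Finset.mem_insert.1 (hB ht) with rfl | h3
      · exact hτF.1.1
      · exact h.sub h3
    have hev : ¬ Odd (cof B e).card := fun h1 => heB (mem_bd.2 ⟨hec, h1⟩)
    have hcB : ∀ t, t ∈ cof B e → t = τ0 ∨ t = τ := fun t ht => hcofF t (cof_mono hBF e ht)
    rcases h.last _ hB0 hd0 with h1 | h1
    · left
      have h2 : τ0 ∉ B := by
        intro h3
        have : τ0 ∈ B.erase τ := Finset.mem_erase.2 ⟨hττ, h3⟩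
        rw [h1] at this
        simp at this
      have h3 : τ ∉ B := by
        intro h4
        apply hev
        have : cof B e = {τ} := by
          ext t
          rw [Finset.mem_singleton]
          constructor
          · intro ht
            rcases hcB t ht with rfl | h5
            · exact absurd (mem_cof.1 ht).1 h2
            · exact h5
          · rintro rfl
            exact mem_cof.2 ⟨h4, hτF.1.2⟩
        rw [this, Finset.card_singleton]
        exact odd_one
      rw [Finset.erase_eq_of_notMem h3] at h1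
      exact h1
    · right
      have h2 : τ0 ∈ B := by
        have : τ0 ∈ B.erase τ := by rw [h1]; exact hτ0G.1
        exact (Finset.mem_erase.1 this).2
      have h3 : τ ∈ B := by
        by_contra h4
        apply hev
        have : cof B e = {τ0} := by
          ext t
          rw [Finset.mem_singleton]
          constructor
          · intro ht
            rcases hcB t ht with h5 | rfl
            · exact h5
            · exact absurd (mem_cof.1 ht).1 h4
          · rintro rfl
            exact mem_cof.2 ⟨h2, hτ0G.2⟩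
        rw [this, Finset.card_singleton]
        exact odd_one
      rw [← h1, Finset.insert_erase h3]

theorem DT_ind (F : Finset (Finset W)) (hF : IsSurface F) (hconn : (gr (edges F)).Connected)
    (hne : F.Nonempty) (hDC : ∀ G ⊆ F, bd G = ∅ → G = ∅ ∨ G = F) (k : ℕ) (hk : k + 1 ≤ F.card) :
    ∃ G Y, DT_P F G Y ∧ G.card = k + 1 := by
  induction k with
  | zero =>
    obtain ⟨t, ht⟩ := hne
    refine ⟨{t}, ∅, ⟨?_, ?_, ?_, ?_, ?_, ?_, ?_⟩, ?_⟩
    · simpa using ht
    · simp
    · simp
    · intro e he
      simp at he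
    · rw [Finset.sdiff_empty]
      exact hconn
    · intro S
      exact ⟨∅, by simp, Finset.disjoint_empty_right _⟩
    · intro B hB _
      exact Finset.subset_singleton_iff.1 hB
    · simp
  | succ k ih =>
    obtain ⟨G, Y, h1, h2⟩ := ih (by omega)
    have hG : G ≠ F := by
      rintro rfl
      omega
    obtain ⟨G', Y', h3, h4⟩ := DT_step F hF hDC G Y h1 hG
    exact ⟨G', Y', h3, by omega⟩

end DT

theorem DT (h1 : DC_stmt) : DT_stmt := by
  intro W _ F hF hconn hne
  have hpos : 0 < F.card := Finset.card_pos.2 hne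
  obtain ⟨G, Y, hP, hc⟩ := DT_ind F hF hconn hne (h1 W F hF hconn) (F.card - 1) (by omega)
  have hG : G = F := Finset.eq_of_subset_of_card_le hP.sub (by omega)
  subst hG
  exact ⟨Y, hP.ysub, hP.card, hP.conn, hP.all, hP.last⟩

end Pool.Agent.helper57.PP
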